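import Pool.Agent.LibOT77.Kernel

open Filter Topology Polynomial MeasureTheory

namespace Pool.Agent.LibOT77

/-- the sum of the inverse powers of the frequencies -/
lemma om_sum (k : ℕ) (hk : 2 ≤ k) :
    HasSum (fun m : ℕ => 2 * ((k - 1).factorial : ℝ) / om m ^ k) (T k) := by
  have h := (odd_sum k hk).mul_left (2 * ((k - 1).factorial : ℝ) * (2 / Real.pi) ^ k)
  have e : 2 * ((k - 1).factorial : ℝ) * (2 / Real.pi) ^ k * ((1 - 1 / 2 ^ k) * zt k) = T k := by
    unfold T
    have hpi := Real.pi_pos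
    rw [div_pow, pow_succ]
    field_simp
    try ring
  rw [e] at h
  refine h.congr_fun ?_
  intro m
  have hpi := Real.pi_pos
  unfold om
  rw [div_pow, div_pow, mul_pow]
  have : (0 : ℝ) < (2 * (m : ℝ) + 1) ^ k := by positivity
  field_simp

section
variable (b : ℕ) (P : ℤ[X]) (hP : ∀ w : ℝ, 0 ≤ w → w ≤ 1 → 0 ≤ ev P w)

include hP in
/-- the other expression of the limit -/
lemma Lam_eq : Lam b P = ∑ j ∈ Finset.range (P.natDegree + b + 2),
    (-1) ^ j * ((RZ b P).coeff (2 * j) : ℝ) * T (2 * j + 1) := by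
  have h1 := tendsto_partial b P hP
  refine tendsto_nhds_unique h1 ?_
  have h2 : ∀ j ∈ Finset.range (P.natDegree + b + 2),
      Tendsto (fun K : ℕ => ∑ m ∈ Finset.range K,
      (-1) ^ j * (2 * (2 * j).factorial * ((RZ b P).coeff (2 * j) : ℝ)) / om m ^ (2 * j + 1)) atTop
      (𝓝 ((-1) ^ j * ((RZ b P).coeff (2 * j) : ℝ) * T (2 * j + 1))) := by
    intro j _
    rcases Nat.eq_zero_or_pos j with h | h
    · subst h
      have : (RZ b P).coeff (2 * 0) = 0 := RZ_coeff_low b P 0 (by omega)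
      rw [this]
      simp
    · have h3 := (om_sum (2 * j + 1) (by omega)).mul_left ((-1) ^ j * ((RZ b P).coeff (2 * j) : ℝ))
      refine h3.tendsto_sum_nat.congr ?_
      intro K
      apply Finset.sum_congr rfl
      intro m _
      rw [Nat.add_sub_cancel]
      ring
  have h3 := tendsto_finsetSum _ h2
  refine h3.congr ?_
  intro K
  rw [Finset.sum_comm]
  apply Finset.sum_congr rfl
  intro m _
  rw [int_sin]

include hP in
lemma Lam_pos (hP0 : P ≠ 0) : 0 < Lam b P := by
  unfold Lam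
  have hne : ∃ u ∈ Set.Icc (0 : ℝ) 2, 0 < (RR b P).eval u := by
    by_contra hcon
    push Not at hcon
    have hz : ∀ u ∈ Set.Icc (0 : ℝ) 2, (RR b P).IsRoot u := by
      intro u hu
      exact le_antisymm (hcon u hu) (RR_nonneg b P hP u hu.1 hu.2)
    have h0 : RR b P = 0 := by
      apply Polynomial.eq_zero_of_infinite_isRoot
      exact (Set.Icc_infinite (by norm_num : (0 : ℝ) < 2)).mono hz
    have h1 : RZ b P = 0 := by
      have := (Polynomial.map_eq_zero_iff (Int.cast_injective (α := ℝ))).1 h0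
      exact this
    unfold RZ at h1
    have hX : (X * (2 - X) : ℤ[X]) ≠ 0 := by
      intro h
      have := congrArg (eval 1) h
      simp at this
    rcases mul_eq_zero.1 h1 with h2 | h2
    · exact pow_ne_zero _ hX h2
    · rw [comp_eq_zero_iff] at h2
      rcases h2 with h2 | ⟨_, h2⟩
      · exact hP0 h2
      · have := congrArg (eval 1) h2
        have h4 := congrArg (eval 0) h2
        simp at this h4
  have h1 : 0 < ∫ u in (0 : ℝ)..2, (RR b P).eval u := by
    apply intervalIntegral.integral_pos (by norm_num) (RR b P).continuous.continuousOn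
    · intro u hu
      exact RR_nonneg b P hP u hu.1.le hu.2
    · exact hne
  have h2 : ∫ u in (0 : ℝ)..2, (RR b P).eval u ≤ ∫ u in (0 : ℝ)..2, g b P u := by
    apply intervalIntegral.integral_mono_on (by norm_num)
      ((RR b P).continuous.intervalIntegrable _ _) (g_intervalIntegrable b P hP)
    intro u hu
    exact g_ge b P hP u hu.1 hu.2
  linarith

/-- the comparison integral -/
noncomputable def JP : ℝ := ∫ u in (0 : ℝ)..2, (u * (2 - u)) ^ b * ev P (u * (2 - u))

include hP in
lemma Lam_le : Lam b P ≤ 2 / Real.pi * JP b P := by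
  unfold Lam JP
  have hpi := Real.pi_pos
  have hc : Continuous (fun u : ℝ => 4 / Real.pi * ((u * (2 - u)) ^ b * ev P (u * (2 - u)))) := by
    have := ev_cont P
    fun_prop
  have h2 : ∫ u in (0 : ℝ)..2, g b P u ≤
      ∫ u in (0 : ℝ)..2, 4 / Real.pi * ((u * (2 - u)) ^ b * ev P (u * (2 - u))) := by
    apply intervalIntegral.integral_mono_on (by norm_num) (g_intervalIntegrable b P hP)
      (hc.intervalIntegrable _ _)
    intro u hu
    exact g_le b P hP u hu.1 hu.2
  rw [intervalIntegral.integral_const_mul] at h2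
  have e : 2 / Real.pi * (∫ u in (0 : ℝ)..2, (u * (2 - u)) ^ b * ev P (u * (2 - u))) =
      (4 / Real.pi * (∫ u in (0 : ℝ)..2, (u * (2 - u)) ^ b * ev P (u * (2 - u)))) / 2 := by ring
  rw [e]
  linarith

include hP in
/-- main theorem -/
theorem main (hP0 : P ≠ 0) (D : ℕ) (hD : 1 ≤ D)
    (h : ∀ k : ℕ, Odd k → b + 2 ≤ k → k ≤ 2 * P.natDegree + 2 * b + 3 →
      ∃ z : ℤ, (D : ℝ) * T k = z) :
    Real.pi / 2 ≤ D * ∫ u in (0 : ℝ)..2, (u * (2 - u)) ^ b * ev P (u * (2 - u)) := by
  have hpi := Real.pi_pos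
  have hDpos : (0 : ℝ) < D := by exact_mod_cast hD
  have hint : ∃ z : ℤ, (D : ℝ) * Lam b P = z := by
    rw [Lam_eq b P hP, Finset.mul_sum]
    have : ∀ j ∈ Finset.range (P.natDegree + b + 2), ∃ z : ℤ,
        (D : ℝ) * ((-1) ^ j * ((RZ b P).coeff (2 * j) : ℝ) * T (2 * j + 1)) = z := by
      intro j hj
      rw [Finset.mem_range] at hj
      by_cases hlow : 2 * j < b + 1
      · rw [RZ_coeff_low b P _ hlow]
        exact ⟨0, by simp⟩
      · obtain ⟨z, hz⟩ := h (2 * j + 1) ⟨j, rfl⟩ (by omega) (by omega)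
        refine ⟨(-1) ^ j * (RZ b P).coeff (2 * j) * z, ?_⟩
        push_cast
        rw [← hz]
        ring
    choose! z hz using this
    refine ⟨∑ j ∈ Finset.range (P.natDegree + b + 2), z j, ?_⟩
    rw [Int.cast_sum]
    exact Finset.sum_congr rfl hz
  obtain ⟨z, hz⟩ := hint
  have hpos : 0 < (D : ℝ) * Lam b P := mul_pos hDpos (Lam_pos b P hP hP0)
  have hz1 : (1 : ℝ) ≤ (D : ℝ) * Lam b P := by
    rw [hz] at hpos ⊢
    have : 0 < z := by exact_mod_cast hpos
    exact_mod_cast this
  have h1 : (1 : ℝ) ≤ (D : ℝ) * (2 / Real.pi * JP b P) :=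
    hz1.trans (mul_le_mul_of_nonneg_left (Lam_le b P hP) hDpos.le)
  have h2 := mul_le_mul_of_nonneg_left h1 (show 0 ≤ Real.pi / 2 by positivity)
  unfold JP at h2
  rw [mul_one] at h2
  refine h2.trans (le_of_eq ?_)
  field_simp

end

end Pool.Agent.LibOT77
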