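import Pool.Agent.LibOT77.Final

open Filter Topology Polynomial MeasureTheory

namespace Pool.Agent.LibOT77

/-- the Beta integral -/
noncomputable def J (a b : ℕ) : ℝ := ∫ u in (0 : ℝ)..2, (1 - u) ^ (2 * a) * (u * (2 - u)) ^ b

lemma J_zero (a : ℕ) : (2 * (a : ℝ) + 1) * J a 0 = 2 := by
  unfold J
  have hF : ∀ u ∈ Set.uIcc (0 : ℝ) 2, HasDerivAt (fun u => -((1 - u) ^ (2 * a + 1)))
      ((2 * (a : ℝ) + 1) * ((1 - u) ^ (2 * a) * (u * (2 - u)) ^ 0)) u := by
    intro u _
    have h := (((hasDerivAt_id u).const_sub 1).pow (2 * a + 1)).neg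
    refine h.congr_deriv ?_
    simp
  have h := intervalIntegral.integral_eq_sub_of_hasDerivAt hF
    (by apply Continuous.intervalIntegrable; fun_prop)
  rw [intervalIntegral.integral_const_mul] at h
  rw [h]
  have e : ((1 : ℝ) - 2) ^ (2 * a + 1) = -1 := by
    rw [pow_succ, pow_mul]
    norm_num
  rw [e]
  norm_num

lemma J_succ (a b : ℕ) : (2 * (a : ℝ) + 2 * (b + 1) + 1) * J a (b + 1) = 2 * (b + 1) * J a b := by
  unfold J
  have hF : ∀ u ∈ Set.uIcc (0 : ℝ) 2, HasDerivAt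
      (fun u => -((1 - u) ^ (2 * a + 1) * (u * (2 - u)) ^ (b + 1)))
      ((2 * (a : ℝ) + 2 * (b + 1) + 1) * ((1 - u) ^ (2 * a) * (u * (2 - u)) ^ (b + 1)) -
        2 * (b + 1) * ((1 - u) ^ (2 * a) * (u * (2 - u)) ^ b)) u := by
    intro u _
    have h1 := ((hasDerivAt_id u).const_sub 1).pow (2 * a + 1)
    have h2 := ((hasDerivAt_id u).mul ((hasDerivAt_id u).const_sub 2)).pow (b + 1)
    have h3 := (h1.mul h2).neg
    refine h3.congr_deriv ?_
    simp
    ring
  have h := intervalIntegral.integral_eq_sub_of_hasDerivAt hF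
    (by apply Continuous.intervalIntegrable; fun_prop)
  rw [intervalIntegral.integral_sub (by apply Continuous.intervalIntegrable; fun_prop)
    (by apply Continuous.intervalIntegrable; fun_prop), intervalIntegral.integral_const_mul,
    intervalIntegral.integral_const_mul] at h
  simp at h
  linarith

lemma J_eq (a b : ℕ) : J a b * ∏ i ∈ Finset.range (b + 1), (2 * (a : ℝ) + 2 * i + 1) =
    2 * (2 ^ b * b.factorial) := by
  induction b with
  | zero =>
    have := J_zero a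
    simp
    linarith
  | succ b ih =>
    rw [Finset.prod_range_succ]
    have h := J_succ a b
    push_cast
    rw [Nat.factorial_succ]
    push_cast
    calc J a (b + 1) * ((∏ i ∈ Finset.range (b + 1), (2 * (a : ℝ) + 2 * i + 1)) *
          (2 * (a : ℝ) + 2 * (b + 1) + 1)) =
          ((2 * (a : ℝ) + 2 * (b + 1) + 1) * J a (b + 1)) *
            ∏ i ∈ Finset.range (b + 1), (2 * (a : ℝ) + 2 * i + 1) := by ring
      _ = 2 * (b + 1) * (J a b * ∏ i ∈ Finset.range (b + 1), (2 * (a : ℝ) + 2 * i + 1)) := by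
          rw [h]; ring
      _ = _ := by rw [ih]; ring

/-- the Beta integral version -/
theorem main_beta (a b D : ℕ) (hD : 1 ≤ D)
    (h : ∀ k : ℕ, Odd k → b + 2 ≤ k → k ≤ 2 * a + 2 * b + 3 → ∃ z : ℤ, (D : ℝ) * T k = z) :
    Real.pi / 4 * ∏ i ∈ Finset.range (b + 1), (2 * (a : ℝ) + 2 * i + 1) ≤
      2 ^ b * b.factorial * D := by
  have hev : ∀ w : ℝ, ev ((1 - X) ^ a) w = (1 - w) ^ a := by
    intro w
    unfold ev
    simp
  have hdeg : ((1 - X : ℤ[X]) ^ a).natDegree ≤ a := by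
    have h1 : ((1 - X : ℤ[X])).natDegree ≤ 1 := by
      have := natDegree_sub_le (1 : ℤ[X]) X
      simp at this
      exact this
    have := natDegree_pow_le_of_le a h1
    simpa using this
  have hne : ((1 - X : ℤ[X]) ^ a) ≠ 0 := by
    apply pow_ne_zero
    intro h0
    have := congrArg (eval 0) h0
    simp at this
  have h1 := main b ((1 - X) ^ a) (by
    intro w h0 h1
    rw [hev]
    exact pow_nonneg (by linarith) _) hne D hD (fun k hk h2 h3 => h k hk h2 (by omega))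
  have e : ∫ u in (0 : ℝ)..2, (u * (2 - u)) ^ b * ev ((1 - X) ^ a) (u * (2 - u)) = J a b := by
    unfold J
    congr 1
    funext u
    rw [hev, pow_mul, mul_comm]
    congr 1
    congr 1
    ring
  rw [e] at h1
  have hP : (0 : ℝ) < ∏ i ∈ Finset.range (b + 1), (2 * (a : ℝ) + 2 * i + 1) := by
    apply Finset.prod_pos
    intro i _
    positivity
  have h2 := mul_le_mul_of_nonneg_right h1 hP.le
  rw [mul_assoc, J_eq] at h2
  linarith

lemma prod_sqrt (b : ℕ) : Real.sqrt (b + 1) * (2 ^ b * b.factorial) ≤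
    ∏ i ∈ Finset.range (b + 1), (2 * ((0 : ℕ) : ℝ) + 2 * i + 1) := by
  induction b with
  | zero => simp
  | succ b ih =>
    rw [Finset.prod_range_succ]
    have h1 : Real.sqrt (((b + 1 : ℕ) : ℝ) + 1) * (2 * (b + 1)) ≤
        Real.sqrt (b + 1) * (2 * (b + 1) + 1) := by
      have e1 : (2 * ((b : ℝ) + 1)) = Real.sqrt ((2 * ((b : ℝ) + 1)) ^ 2) :=
        (Real.sqrt_sq (by positivity)).symm
      have e2 : (2 * ((b : ℝ) + 1) + 1) = Real.sqrt ((2 * ((b : ℝ) + 1) + 1) ^ 2) :=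
        (Real.sqrt_sq (by positivity)).symm
      rw [e2, ← Real.sqrt_mul (by positivity)]
      conv_lhs => rw [e1]
      rw [← Real.sqrt_mul (by positivity)]
      apply Real.sqrt_le_sqrt
      push_cast
      nlinarith [(by positivity : (0 : ℝ) ≤ b)]
    have hf : (0 : ℝ) < 2 ^ b * b.factorial := by positivity
    rw [Nat.factorial_succ]
    push_cast at h1 ⊢
    calc Real.sqrt ((b : ℝ) + 1 + 1) * (2 ^ (b + 1) * ((b + 1) * b.factorial)) =
        (Real.sqrt ((b : ℝ) + 1 + 1) * (2 * (b + 1))) * (2 ^ b * b.factorial) := by ring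
      _ ≤ (Real.sqrt (b + 1) * (2 * (b + 1) + 1)) * (2 ^ b * b.factorial) :=
        mul_le_mul_of_nonneg_right h1 hf.le
      _ = (Real.sqrt (b + 1) * (2 ^ b * b.factorial)) * (2 * (b + 1) + 1) := by ring
      _ ≤ _ := by
        push_cast at ih
        have := mul_le_mul_of_nonneg_right ih (show (0 : ℝ) ≤ 2 * (b + 1) + 1 by positivity)
        refine this.trans (le_of_eq ?_)
        ring

theorem cor_sqrt (m D : ℕ) (hm : 2 ≤ m) (hD : 1 ≤ D)
    (h : ∀ k : ℕ, Odd k → m ≤ k → k < 2 * m → ∃ z : ℤ, (D : ℝ) * T k = z) :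
    Real.pi / 4 * Real.sqrt (m - 1) ≤ D := by
  obtain ⟨b, rfl⟩ := Nat.exists_eq_add_of_le hm
  have h1 := main_beta 0 b D hD (fun k hk h2 h3 => h k hk (by omega) (by omega))
  have h2 := prod_sqrt b
  have hpi := Real.pi_pos
  have hf : (0 : ℝ) < 2 ^ b * b.factorial := by positivity
  have h3 := mul_le_mul_of_nonneg_left h2 (show 0 ≤ Real.pi / 4 by positivity)
  have e : (((2 + b : ℕ) : ℝ) - 1) = b + 1 := by push_cast; ring
  rw [e]
  have h4 : Real.pi / 4 * Real.sqrt (b + 1) * (2 ^ b * b.factorial) ≤ D * (2 ^ b * b.factorial) := by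
    calc Real.pi / 4 * Real.sqrt (b + 1) * (2 ^ b * b.factorial) =
          Real.pi / 4 * (Real.sqrt (b + 1) * (2 ^ b * b.factorial)) := by
          ring
      _ ≤ _ := h3
      _ ≤ _ := h1
      _ = _ := by ring
  exact le_of_mul_le_mul_right h4 hf

lemma sup_bound (w : ℝ) (h0 : 0 ≤ w) (h1 : w ≤ 1) :
    w ^ 4 * ((1 - w) ^ 4 * (2 * w - 1) ^ 2) ≤ 1 / 5 ^ 5 := by
  set x := (2 * w - 1) ^ 2 with hx
  have hx0 : 0 ≤ x := sq_nonneg _
  have hx1 : x ≤ 1 := by
    rw [hx]
    nlinarith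
  have e : w ^ 4 * ((1 - w) ^ 4 * x) = ((1 - x) / 4) ^ 4 * x := by
    have : (1 - x) / 4 = w * (1 - w) := by rw [hx]; ring
    rw [this]
    ring
  rw [e]
  have hq : 0 ≤ 256 - 565 * x + 450 * x ^ 2 - 125 * x ^ 3 := by
    have h2 : 0 ≤ 240 - 325 * x + 125 * x ^ 2 := by
      nlinarith [sq_nonneg (x - 13 / 10)]
    have h3 : 256 - 565 * x + 450 * x ^ 2 - 125 * x ^ 3 =
        16 + (1 - x) * (240 - 325 * x + 125 * x ^ 2) := by ring
    rw [h3]
    have := mul_nonneg (show 0 ≤ 1 - x by linarith) h2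
    linarith
  have h4 : 1 / 5 ^ 5 - ((1 - x) / 4) ^ 4 * x =
      (5 * x - 1) ^ 2 * (256 - 565 * x + 450 * x ^ 2 - 125 * x ^ 3) / 800000 := by
    ring
  have h5 : 0 ≤ (5 * x - 1) ^ 2 * (256 - 565 * x + 450 * x ^ 2 - 125 * x ^ 3) / 800000 := by
    apply div_nonneg (mul_nonneg (sq_nonneg _) hq) (by norm_num)
  linarith

theorem cor_pow (n D : ℕ) (hD : 1 ≤ D)
    (h : ∀ k : ℕ, Odd k → 4 * n + 2 ≤ k → k ≤ 20 * n + 3 → ∃ z : ℤ, (D : ℝ) * T k = z) :
    Real.pi / 4 * 5 ^ (5 * n) ≤ D := by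
  set P : ℤ[X] := ((1 - X) ^ 4 * (2 * X - 1) ^ 2) ^ n with hPdef
  have hev : ∀ w : ℝ, ev P w = ((1 - w) ^ 4 * (2 * w - 1) ^ 2) ^ n := by
    intro w
    unfold ev
    rw [hPdef]
    simp
  have hdeg : P.natDegree ≤ 6 * n := by
    have h1 : ((1 - X : ℤ[X])).natDegree ≤ 1 := by
      have := natDegree_sub_le (1 : ℤ[X]) X
      simp at this
      exact this
    have h2 : ((2 * X - 1 : ℤ[X])).natDegree ≤ 1 := by
      have h3 := natDegree_sub_le (2 * X : ℤ[X]) 1
      have h4 : (2 * X : ℤ[X]).natDegree ≤ 1 := by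
        have := natDegree_C_mul_le (2 : ℤ) X
        simpa using this
      simp at h3
      omega
    have h5 : (((1 - X) ^ 4 * (2 * X - 1) ^ 2 : ℤ[X])).natDegree ≤ 6 := by
      refine natDegree_mul_le.trans ?_
      have h6 := natDegree_pow_le_of_le 4 h1
      have h7 := natDegree_pow_le_of_le 2 h2
      omega
    have := natDegree_pow_le_of_le n h5
    rw [hPdef]
    omega
  have hne : P ≠ 0 := by
    rw [hPdef]
    apply pow_ne_zero
    intro h0
    have := congrArg (eval 0) h0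
    simp at this
  have h1 := main (4 * n) P (by
    intro w h0 h1
    rw [hev]
    apply pow_nonneg
    positivity) hne D hD (fun k hk h2 h3 => h k hk h2 (by omega))
  have h2 : ∫ u in (0 : ℝ)..2, (u * (2 - u)) ^ (4 * n) * ev P (u * (2 - u)) ≤
      ∫ u in (0 : ℝ)..2, (1 / 5 ^ 5 : ℝ) ^ n := by
    apply intervalIntegral.integral_mono_on (by norm_num)
    · apply Continuous.intervalIntegrable
      have := ev_cont P
      fun_prop
    · exact intervalIntegrable_const
    · intro u hu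
      rw [hev, pow_mul, ← mul_pow]
      have hw0 := w_nonneg u hu.1 hu.2
      have hw1 := w_le_one u
      apply pow_le_pow_left₀
      · positivity
      · exact sup_bound _ hw0 hw1
  rw [intervalIntegral.integral_const] at h2
  have hDpos : (0 : ℝ) < D := by exact_mod_cast hD
  have h3 := h1.trans (mul_le_mul_of_nonneg_left h2 hDpos.le)
  simp only [sub_zero, smul_eq_mul] at h3
  have hfive : (0 : ℝ) < 5 ^ (5 * n) := by positivity
  have e : (1 / 5 ^ 5 : ℝ) ^ n = 1 / 5 ^ (5 * n) := by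
    rw [div_pow, one_pow, ← pow_mul]
  rw [e] at h3
  have h4 := mul_le_mul_of_nonneg_right h3 hfive.le
  have e2 : (D : ℝ) * (2 * (1 / 5 ^ (5 * n))) * 5 ^ (5 * n) = 2 * D := by
    field_simp
  rw [e2] at h4
  linarith

lemma T_three : T 3 = 28 * zt 3 / Real.pi ^ 3 := by
  unfold T
  norm_num [Nat.factorial]

end Pool.Agent.LibOT77
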