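import Mathlib

open Filter Topology Polynomial MeasureTheory

namespace Pool.Agent.LibOT77

/-- `ζ(k) = ∑_{n ≥ 1} 1 / n ^ k` -/
noncomputable def zt (k : ℕ) : ℝ := ∑' n : ℕ, 1 / ((n : ℝ) + 1) ^ k

/-- `T k = (k-1)! (2^(k+1) - 2) ζ(k) / π^k`; for even `k` this is a tangent number, and
`T 3 = 28 ζ(3) / π^3`. -/
noncomputable def T (k : ℕ) : ℝ := (k - 1).factorial * (2 ^ (k + 1) - 2) * zt k / Real.pi ^ k

/-- the sum over the odd integers -/
lemma odd_sum (k : ℕ) (hk : 2 ≤ k) :
    HasSum (fun n : ℕ => 1 / (2 * (n : ℝ) + 1) ^ k) ((1 - 1 / 2 ^ k) * zt k) := by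
  have hs : Summable (fun n : ℕ => 1 / ((n : ℝ) + 1) ^ k) := by
    have := (Real.summable_one_div_nat_pow (p := k)).2 (by omega)
    have h2 := (summable_nat_add_iff 1).2 this
    refine h2.congr ?_
    intro n
    push_cast
    rfl
  have he : HasSum (fun n : ℕ => 1 / (((2 * n + 1 : ℕ) : ℝ) + 1) ^ k) (1 / 2 ^ k * zt k) := by
    have := hs.hasSum.mul_left (1 / (2 : ℝ) ^ k)
    refine this.congr_fun ?_
    intro n
    rw [one_div_mul_one_div, ← mul_pow]
    congr 2
    push_cast
    ring
  have ho : Summable (fun n : ℕ => 1 / (((2 * n : ℕ) : ℝ) + 1) ^ k) := by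
    exact hs.comp_injective (i := fun n => 2 * n) (fun a b h => by simpa using h)
  have htot := HasSum.even_add_odd (f := fun n : ℕ => 1 / ((n : ℝ) + 1) ^ k) ho.hasSum he
  have huniq := htot.unique hs.hasSum
  have hval : ∑' n : ℕ, 1 / (((2 * n : ℕ) : ℝ) + 1) ^ k = (1 - 1 / 2 ^ k) * zt k := by
    unfold zt at huniq ⊢
    linarith
  have := ho.hasSum
  rw [hval] at this
  refine this.congr_fun ?_
  intro n
  push_cast
  rfl

/-- the frequencies -/
noncomputable def om (m : ℕ) : ℝ := (2 * (m : ℝ) + 1) * Real.pi / 2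

lemma om_pos (m : ℕ) : 0 < om m := by
  unfold om
  have := Real.pi_pos
  positivity

lemma sin_two_om (m : ℕ) : Real.sin (om m * 2) = 0 := by
  have : om m * 2 = ((2 * m + 1 : ℕ) : ℝ) * Real.pi := by
    unfold om
    push_cast
    ring
  rw [this]
  exact Real.sin_nat_mul_pi _

lemma cos_two_om (m : ℕ) : Real.cos (om m * 2) = -1 := by
  have : om m * 2 = (m : ℝ) * (2 * Real.pi) + Real.pi := by
    unfold om
    ring
  rw [this, Real.cos_add_pi, Real.cos_nat_mul_two_pi]

/-- integration by parts -/
lemma ibp (P : ℝ[X]) (m : ℕ) :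
    ∫ u in (0 : ℝ)..2, P.eval u * Real.sin (om m * u) =
      (P.eval 0 + P.eval 2) / om m -
        1 / om m ^ 2 * ∫ u in (0 : ℝ)..2, (derivative (derivative P)).eval u * Real.sin (om m * u) := by
  have hw := om_pos m
  have hw0 : om m ≠ 0 := hw.ne'
  have hF : ∀ u ∈ Set.uIcc (0 : ℝ) 2, HasDerivAt (fun u => -(P.eval u * Real.cos (om m * u) / om m)
      + (derivative P).eval u * Real.sin (om m * u) / om m ^ 2)
      (P.eval u * Real.sin (om m * u) +
        1 / om m ^ 2 * ((derivative (derivative P)).eval u * Real.sin (om m * u))) u := by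
    intro u _
    have h1 := P.hasDerivAt u
    have h2 := (derivative P).hasDerivAt u
    have h3 : HasDerivAt (fun u => om m * u) (om m) u := by
      simpa using (hasDerivAt_id u).const_mul (om m)
    have h4 := h3.cos
    have h5 := h3.sin
    have h6 := ((h1.mul h4).div_const (om m)).neg.add ((h2.mul h5).div_const (om m ^ 2))
    refine h6.congr_deriv ?_
    field_simp
    ring
  have hc1 : Continuous (fun u => P.eval u * Real.sin (om m * u)) := by
    exact P.continuous.mul (Real.continuous_sin.comp (continuous_const.mul continuous_id))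
  have hc2 : Continuous (fun u => (derivative (derivative P)).eval u * Real.sin (om m * u)) := by
    exact (derivative (derivative P)).continuous.mul
      (Real.continuous_sin.comp (continuous_const.mul continuous_id))
  have h := intervalIntegral.integral_eq_sub_of_hasDerivAt hF
    ((hc1.add (hc2.const_mul (1 / om m ^ 2))).intervalIntegrable _ _)
  rw [intervalIntegral.integral_add (hc1.intervalIntegrable _ _)
    ((hc2.const_mul _).intervalIntegrable _ _), intervalIntegral.integral_const_mul] at h
  rw [sin_two_om, cos_two_om] at h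
  simp only [mul_zero, Real.sin_zero, Real.cos_zero, zero_div, add_zero, mul_one] at h
  have h7 : ∫ u in (0 : ℝ)..2, P.eval u * Real.sin (om m * u) = -(P.eval 2 * -1 / om m) -
      -(P.eval 0 / om m) -
      1 / om m ^ 2 * ∫ u in (0 : ℝ)..2, (derivative (derivative P)).eval u * Real.sin (om m * u) := by
    linarith
  rw [h7]
  ring

lemma ibp_iter (P : ℝ[X]) (m J : ℕ) :
    ∫ u in (0 : ℝ)..2, P.eval u * Real.sin (om m * u) =
      ∑ j ∈ Finset.range J, (-1) ^ j * ((derivative^[2 * j] P).eval 0 + (derivative^[2 * j] P).eval 2)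
        / om m ^ (2 * j + 1) +
      (-1) ^ J / om m ^ (2 * J) *
        ∫ u in (0 : ℝ)..2, (derivative^[2 * J] P).eval u * Real.sin (om m * u) := by
  have hw := om_pos m
  have hw0 : om m ≠ 0 := hw.ne'
  induction J with
  | zero => simp
  | succ J ih =>
    rw [ih, ibp (derivative^[2 * J] P) m, Finset.sum_range_succ]
    have e : derivative^[2 * (J + 1)] P = derivative (derivative (derivative^[2 * J] P)) := by
      rw [show 2 * (J + 1) = 2 * J + 1 + 1 by ring, Function.iterate_succ_apply',
        Function.iterate_succ_apply']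
    rw [e]
    field_simp
    ring

end Pool.Agent.LibOT77
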