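import Pool.Agent.LibOT77.Poly

open Filter Topology Polynomial MeasureTheory

namespace Pool.Agent.LibOT77

/-- the quotient `R / sin` -/
noncomputable def g (b : ℕ) (P : ℤ[X]) (u : ℝ) : ℝ := (RR b P).eval u / Real.sin (Real.pi * u / 2)

lemma sum_sin (K : ℕ) (θ : ℝ) :
    Real.sin θ * ∑ m ∈ Finset.range K, Real.sin ((2 * (m : ℝ) + 1) * θ) =
      (1 - Real.cos (2 * K * θ)) / 2 := by
  induction K with
  | zero => simp
  | succ K ih =>
    rw [Finset.sum_range_succ, mul_add, ih]
    have h1 : Real.cos (2 * ((K + 1 : ℕ) : ℝ) * θ) = Real.cos ((2 * (K : ℝ) + 1) * θ + θ) := by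
      congr 1
      push_cast
      ring
    have h2 : Real.cos (2 * (K : ℝ) * θ) = Real.cos ((2 * (K : ℝ) + 1) * θ - θ) := by
      congr 1
      ring
    rw [h1, h2, Real.cos_add, Real.cos_sub]
    ring

lemma sin_lower (u : ℝ) (h0 : 0 ≤ u) (h2 : u ≤ 2) :
    Real.pi / 4 * (u * (2 - u)) ≤ Real.sin (Real.pi * u / 2) := by
  have hpi := Real.pi_pos
  have hpi4 := Real.pi_lt_d2
  have key : ∀ v : ℝ, 0 ≤ v → v ≤ 1 → Real.pi / 4 * (v * (2 - v)) ≤ Real.sin (Real.pi * v / 2) := by
    intro v hv0 hv1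
    have h := Real.sin_ge_sub_cube (x := Real.pi * v / 2) (by positivity)
    refine le_trans ?_ h
    have e : Real.pi * v / 2 - (Real.pi * v / 2) ^ 3 / 6 - Real.pi / 4 * (v * (2 - v)) =
        Real.pi / 4 * v ^ 2 * (1 - Real.pi ^ 2 * v / 12) := by
      ring
    have h3 : Real.pi ^ 2 * v / 12 ≤ 1 := by
      have : Real.pi ^ 2 * v ≤ 3.15 ^ 2 * 1 := by
        apply mul_le_mul _ hv1 hv0 (by positivity)
        apply pow_le_pow_left₀ hpi.le hpi4.le
      norm_num at this
      linarith
    have h4 : 0 ≤ Real.pi / 4 * v ^ 2 * (1 - Real.pi ^ 2 * v / 12) := by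
      apply mul_nonneg (by positivity)
      linarith
    linarith
  rcases le_total u 1 with h | h
  · exact key u h0 h
  · have := key (2 - u) (by linarith) (by linarith)
    have e : Real.sin (Real.pi * (2 - u) / 2) = Real.sin (Real.pi * u / 2) := by
      rw [show Real.pi * (2 - u) / 2 = Real.pi - Real.pi * u / 2 by ring, Real.sin_pi_sub]
    rw [e] at this
    have e2 : (2 - u) * (2 - (2 - u)) = u * (2 - u) := by ring
    rw [e2] at this
    exact this

lemma w_nonneg (u : ℝ) (h0 : 0 ≤ u) (h2 : u ≤ 2) : 0 ≤ u * (2 - u) :=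
  mul_nonneg h0 (by linarith)

lemma w_le_one (u : ℝ) : u * (2 - u) ≤ 1 := by
  nlinarith [sq_nonneg (u - 1)]

section
variable (b : ℕ) (P : ℤ[X]) (hP : ∀ w : ℝ, 0 ≤ w → w ≤ 1 → 0 ≤ ev P w)

lemma ev_cont : Continuous (ev P) := by
  unfold ev
  exact Polynomial.continuous _

include hP in
lemma evw_nonneg (u : ℝ) (h0 : 0 ≤ u) (h2 : u ≤ 2) : 0 ≤ (u * (2 - u)) ^ b * ev P (u * (2 - u)) :=
  mul_nonneg (pow_nonneg (w_nonneg u h0 h2) _) (hP _ (w_nonneg u h0 h2) (w_le_one u))

include hP in
lemma RR_nonneg (u : ℝ) (h0 : 0 ≤ u) (h2 : u ≤ 2) : 0 ≤ (RR b P).eval u := by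
  rw [RR_eval]
  exact evw_nonneg (b + 1) P hP u h0 h2

lemma sin_pos' (u : ℝ) (h0 : 0 < u) (h2 : u < 2) : 0 < Real.sin (Real.pi * u / 2) := by
  have hpi := Real.pi_pos
  apply Real.sin_pos_of_pos_of_lt_pi
  · positivity
  · nlinarith

lemma RR_zero : (RR b P).eval 0 = 0 := by
  rw [RR_eval]; simp

lemma RR_two : (RR b P).eval 2 = 0 := by
  rw [RR_eval]; simp

lemma g_mul_sin (u : ℝ) (h0 : 0 ≤ u) (h2 : u ≤ 2) :
    (RR b P).eval u = g b P u * Real.sin (Real.pi * u / 2) := by
  unfold g
  rcases h0.eq_or_lt with h | h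
  · rw [← h, RR_zero]; simp
  rcases h2.eq_or_lt with h' | h'
  · rw [h', RR_two]; simp
  have := sin_pos' u h h'
  field_simp

include hP in
lemma g_nonneg (u : ℝ) (h0 : 0 ≤ u) (h2 : u ≤ 2) : 0 ≤ g b P u := by
  unfold g
  apply div_nonneg (RR_nonneg b P hP u h0 h2)
  apply Real.sin_nonneg_of_nonneg_of_le_pi
  · have := Real.pi_pos; positivity
  · have := Real.pi_pos; nlinarith

include hP in
lemma g_ge (u : ℝ) (h0 : 0 ≤ u) (h2 : u ≤ 2) : (RR b P).eval u ≤ g b P u := by
  have h1 := g_mul_sin b P u h0 h2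
  have h3 := g_nonneg b P hP u h0 h2
  have h4 := Real.sin_le_one (Real.pi * u / 2)
  rw [h1]
  nlinarith

include hP in
lemma g_le (u : ℝ) (h0 : 0 ≤ u) (h2 : u ≤ 2) :
    g b P u ≤ 4 / Real.pi * ((u * (2 - u)) ^ b * ev P (u * (2 - u))) := by
  have hpi := Real.pi_pos
  have hA := evw_nonneg b P hP u h0 h2
  rcases h0.eq_or_lt with h | h
  · have : g b P u = 0 := by unfold g; rw [← h, RR_zero]; simp
    rw [this]
    exact mul_nonneg (by positivity) hA
  rcases h2.eq_or_lt with h' | h'
  · have : g b P u = 0 := by unfold g; rw [h', RR_two]; simp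
    rw [this]
    exact mul_nonneg (by positivity) hA
  have hs := sin_pos' u h h'
  have hl := sin_lower u h0 h2
  unfold g
  rw [div_le_iff₀ hs, RR_eval, pow_succ]
  have h5 := mul_le_mul_of_nonneg_left hl (mul_nonneg (show 0 ≤ 4 / Real.pi by positivity) hA)
  refine le_trans (le_of_eq ?_) h5
  field_simp

include hP in
lemma g_bdd : ∃ M : ℝ, ∀ u : ℝ, 0 ≤ u → u ≤ 2 → ‖g b P u‖ ≤ M := by
  have hc : Continuous (fun u : ℝ => 4 / Real.pi * ((u * (2 - u)) ^ b * ev P (u * (2 - u)))) := by
    have := ev_cont P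
    fun_prop
  obtain ⟨M, hM⟩ := (isCompact_Icc (a := (0 : ℝ)) (b := 2)).exists_bound_of_continuousOn
    hc.continuousOn
  refine ⟨M, ?_⟩
  intro u h0 h2
  rw [Real.norm_of_nonneg (g_nonneg b P hP u h0 h2)]
  refine (g_le b P hP u h0 h2).trans ?_
  exact (Real.le_norm_self _).trans (hM u ⟨h0, h2⟩)

lemma g_meas : Measurable (g b P) := by
  unfold g
  apply Measurable.div
  · exact (RR b P).continuous.measurable
  · exact (Real.continuous_sin.comp (by fun_prop)).measurable

include hP in
lemma g_integrableOn : IntegrableOn (g b P) (Set.Ioc 0 2) := by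
  obtain ⟨M, hM⟩ := g_bdd b P hP
  apply Measure.integrableOn_of_bounded (M := M)
  · simp
  · exact (g_meas b P).aestronglyMeasurable
  · rw [ae_restrict_iff' measurableSet_Ioc]
    apply Filter.Eventually.of_forall
    intro u hu
    exact hM u hu.1.le hu.2

include hP in
lemma g_intervalIntegrable : IntervalIntegrable (g b P) volume 0 2 := by
  rw [intervalIntegrable_iff_integrableOn_Ioc_of_le (by norm_num)]
  exact g_integrableOn b P hP

include hP in
lemma gcos_intervalIntegrable (w : ℝ) :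
    IntervalIntegrable (fun u => g b P u * Real.cos (w * u)) volume 0 2 := by
  apply (g_intervalIntegrable b P hP).mul_continuousOn
  exact (Real.continuous_cos.comp (by fun_prop)).continuousOn

include hP in
lemma partial_sum (K : ℕ) :
    ∑ m ∈ Finset.range K, ∫ u in (0 : ℝ)..2, (RR b P).eval u * Real.sin (om m * u) =
      (∫ u in (0 : ℝ)..2, g b P u) / 2 -
        (∫ u in (0 : ℝ)..2, g b P u * Real.cos (K * Real.pi * u)) / 2 := by
  rw [← intervalIntegral.integral_finsetSum]
  · rw [← sub_div, ← intervalIntegral.integral_sub (g_intervalIntegrable b P hP)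
      (gcos_intervalIntegrable b P hP _), ← intervalIntegral.integral_div]
    apply intervalIntegral.integral_congr
    intro u hu
    rw [Set.uIcc_of_le (by norm_num)] at hu
    show ∑ m ∈ Finset.range K, (RR b P).eval u * Real.sin (om m * u) =
      (g b P u - g b P u * Real.cos (K * Real.pi * u)) / 2
    rw [← Finset.mul_sum, g_mul_sin b P u hu.1 hu.2, mul_assoc]
    have h := sum_sin K (Real.pi * u / 2)
    have e1 : ∀ m ∈ Finset.range K, Real.sin (om m * u) =
        Real.sin ((2 * (m : ℝ) + 1) * (Real.pi * u / 2)) := by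
      intro m _
      congr 1
      unfold om
      ring
    rw [Finset.sum_congr rfl e1, h]
    have e2 : 2 * (K : ℝ) * (Real.pi * u / 2) = K * Real.pi * u := by ring
    rw [e2]
    ring
  · intro m _
    apply Continuous.intervalIntegrable
    exact (RR b P).continuous.mul (Real.continuous_sin.comp (by fun_prop))

include hP in
lemma tendsto_gcos :
    Tendsto (fun K : ℕ => ∫ u in (0 : ℝ)..2, g b P u * Real.cos (K * Real.pi * u)) atTop (𝓝 0) := by
  obtain ⟨M, hM⟩ := g_bdd b P hP
  set F : ℝ → ℂ := Set.indicator (Set.Ioc 0 2) (fun u => (g b P u : ℂ)) with hF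
  have hRL := Real.tendsto_integral_exp_smul_cocompact F
  have hcast : Tendsto (fun K : ℕ => (K : ℝ) / 2) atTop (cocompact ℝ) := by
    have h1 : Tendsto (fun K : ℕ => (K : ℝ) / 2) atTop atTop :=
      tendsto_natCast_atTop_atTop.atTop_div_const (by norm_num)
    rw [cocompact_eq_atBot_atTop]
    exact h1.mono_right le_sup_right
  have h2 := (Complex.continuous_re.tendsto _).comp (hRL.comp hcast)
  simp only [Complex.zero_re] at h2
  refine h2.congr ?_
  intro K
  simp only [Function.comp_apply]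
  have hint : IntegrableOn (fun v : ℝ => (Real.fourierChar (-(v * ((K : ℝ) / 2)))) • (g b P v : ℂ))
      (Set.Ioc 0 2) := by
    apply Measure.integrableOn_of_bounded (M := M)
    · simp
    · apply Measurable.aestronglyMeasurable
      have hm : Measurable (fun v : ℝ => (Real.fourierChar (-(v * ((K : ℝ) / 2))) : ℂ)) := by
        apply Continuous.measurable
        exact continuous_subtype_val.comp (Real.continuous_fourierChar.comp (by fun_prop))
      exact hm.mul (Complex.measurable_ofReal.comp (g_meas b P))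
    · rw [ae_restrict_iff' measurableSet_Ioc]
      apply Filter.Eventually.of_forall
      intro u hu
      rw [Circle.norm_smul]
      rw [Complex.norm_real]
      exact hM u hu.1.le hu.2
  have e1 : (∫ v : ℝ, (Real.fourierChar (-(v * ((K : ℝ) / 2)))) • F v) =
      ∫ v in Set.Ioc (0 : ℝ) 2, (Real.fourierChar (-(v * ((K : ℝ) / 2)))) • (g b P v : ℂ) := by
    rw [← integral_indicator measurableSet_Ioc]
    congr 1
    funext v
    rw [hF]
    by_cases hv : v ∈ Set.Ioc (0 : ℝ) 2
    · rw [Set.indicator_of_mem hv, Set.indicator_of_mem hv]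
    · rw [Set.indicator_of_notMem hv, Set.indicator_of_notMem hv, smul_zero]
  rw [e1, intervalIntegral.integral_of_le (by norm_num)]
  have e2 := integral_re hint
  simp only [RCLike.re_to_complex] at e2
  rw [← e2]
  congr 1
  funext v
  rw [Circle.smul_def, smul_eq_mul, Complex.re_mul_ofReal, mul_comm]
  congr 1
  rw [Real.fourierChar_apply, Complex.exp_ofReal_mul_I_re]
  rw [← Real.cos_neg]
  congr 1
  ring

/-- the value of the limit -/
noncomputable def Lam : ℝ := (∫ u in (0 : ℝ)..2, g b P u) / 2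

include hP in
lemma tendsto_partial :
    Tendsto (fun K : ℕ => ∑ m ∈ Finset.range K,
      ∫ u in (0 : ℝ)..2, (RR b P).eval u * Real.sin (om m * u)) atTop (𝓝 (Lam b P)) := by
  have h := (tendsto_gcos b P hP).div_const 2
  have h2 := (tendsto_const_nhds (x := (∫ u in (0 : ℝ)..2, g b P u) / 2)).sub h
  simp only [zero_div, sub_zero] at h2
  refine h2.congr ?_
  intro K
  rw [partial_sum b P hP]

end

end Pool.Agent.LibOT77
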