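import Pool.Agent.LibOT77.Defs

open Filter Topology Polynomial MeasureTheory

namespace Pool.Agent.LibOT77

/-- the integer polynomial `w^(b+1) P(w)`, `w = u(2-u)` -/
noncomputable def RZ (b : ℕ) (P : ℤ[X]) : ℤ[X] := (X * (2 - X)) ^ (b + 1) * P.comp (X * (2 - X))

/-- the same over the reals -/
noncomputable def RR (b : ℕ) (P : ℤ[X]) : ℝ[X] := (RZ b P).map (Int.castRingHom ℝ)

/-- real values of an integer polynomial -/
noncomputable def ev (P : ℤ[X]) (w : ℝ) : ℝ := (P.map (Int.castRingHom ℝ)).eval w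

lemma RR_eval (b : ℕ) (P : ℤ[X]) (u : ℝ) :
    (RR b P).eval u = (u * (2 - u)) ^ (b + 1) * ev P (u * (2 - u)) := by
  unfold RR RZ ev
  simp [Polynomial.map_comp, eval_comp]

lemma RR_coeff (b : ℕ) (P : ℤ[X]) (i : ℕ) : (RR b P).coeff i = ((RZ b P).coeff i : ℝ) := by
  unfold RR
  simp

lemma RZ_coeff_low (b : ℕ) (P : ℤ[X]) (i : ℕ) (hi : i < b + 1) : (RZ b P).coeff i = 0 := by
  unfold RZ
  rw [mul_pow, mul_assoc]
  rw [coeff_X_pow_mul']
  rw [if_neg (by omega)]

lemma RZ_natDegree (b : ℕ) (P : ℤ[X]) : (RZ b P).natDegree ≤ 2 * P.natDegree + 2 * b + 2 := by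
  unfold RZ
  have h2 : ((2 - X : ℤ[X])).natDegree ≤ 1 := by
    have := natDegree_sub_le (2 : ℤ[X]) X
    have h3 : (2 : ℤ[X]).natDegree = 0 := natDegree_ofNat 2
    rw [h3] at this
    simp at this
    exact this
  have h3 : ((X * (2 - X) : ℤ[X])).natDegree ≤ 2 := by
    refine natDegree_mul_le.trans ?_
    have : (X : ℤ[X]).natDegree ≤ 1 := natDegree_X_le
    omega
  refine natDegree_mul_le.trans ?_
  have h4 : (P.comp (X * (2 - X))).natDegree ≤ P.natDegree * 2 := by
    rw [natDegree_comp]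
    exact Nat.mul_le_mul_left _ h3
  have h5 : ((X * (2 - X) : ℤ[X]) ^ (b + 1)).natDegree ≤ (b + 1) * 2 := natDegree_pow_le_of_le _ h3
  omega

lemma comp_iter (P : ℝ[X]) (j : ℕ) : (derivative^[2 * j] P).comp (2 - X) =
    derivative^[2 * j] (P.comp (2 - X)) := by
  induction j with
  | zero => simp
  | succ j ih =>
    rw [show 2 * (j + 1) = 2 * j + 1 + 1 by ring]
    rw [Function.iterate_succ_apply', Function.iterate_succ_apply', Function.iterate_succ_apply',
      Function.iterate_succ_apply', ← ih]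
    rw [derivative_comp, derivative_mul, derivative_comp]
    have h1 : derivative (2 - X : ℝ[X]) = -1 := by simp
    rw [h1]
    simp

lemma RR_symm (b : ℕ) (P : ℤ[X]) : (RR b P).comp (2 - X) = RR b P := by
  unfold RR RZ
  simp only [Polynomial.map_mul, Polynomial.map_pow, Polynomial.map_sub, Polynomial.map_comp,
    map_X, Polynomial.map_ofNat, mul_comp, pow_comp, sub_comp, X_comp, ofNat_comp, comp_assoc]
  have e2 : ((2 : ℕ) : ℝ[X]) = 2 := by norm_num
  rw [e2]
  have e3 : (2 - X : ℝ[X]) * (2 - (2 - X)) = X * (2 - X) := by ring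
  rw [e3]

lemma iter_eval_zero (b : ℕ) (P : ℤ[X]) (j : ℕ) : (derivative^[2 * j] (RR b P)).eval 0 =
    (2 * j).factorial * ((RZ b P).coeff (2 * j) : ℝ) := by
  rw [← coeff_zero_eq_eval_zero, coeff_iterate_derivative, zero_add, Nat.descFactorial_self,
    RR_coeff, nsmul_eq_mul]

lemma iter_eval_two (b : ℕ) (P : ℤ[X]) (j : ℕ) : (derivative^[2 * j] (RR b P)).eval 2 =
    (2 * j).factorial * ((RZ b P).coeff (2 * j) : ℝ) := by
  rw [← iter_eval_zero]
  have h := congrArg (fun P => eval 0 P) (comp_iter (RR b P) j)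
  rw [RR_symm] at h
  simp only [eval_comp, eval_sub, eval_X, eval_ofNat, sub_zero] at h
  exact h

/-- the integral of `R` against a sine -/
lemma int_sin (b : ℕ) (P : ℤ[X]) (m : ℕ) :
    ∫ u in (0 : ℝ)..2, (RR b P).eval u * Real.sin (om m * u) =
      ∑ j ∈ Finset.range (P.natDegree + b + 2),
        (-1) ^ j * (2 * (2 * j).factorial * ((RZ b P).coeff (2 * j) : ℝ))
        / om m ^ (2 * j + 1) := by
  rw [ibp_iter (RR b P) m (P.natDegree + b + 2)]
  have h0 : derivative^[2 * (P.natDegree + b + 2)] (RR b P) = 0 := by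
    apply iterate_derivative_eq_zero
    have h1 : (RR b P).natDegree ≤ (RZ b P).natDegree := natDegree_map_le
    have h2 := RZ_natDegree b P
    omega
  rw [h0]
  simp only [eval_zero, zero_mul, intervalIntegral.integral_zero, mul_zero, add_zero]
  apply Finset.sum_congr rfl
  intro j _
  rw [iter_eval_zero, iter_eval_two]
  ring

end Pool.Agent.LibOT77
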